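import Mathlib
import Pool.Agent.H694R3.Dj3

open Set TopologicalSpace

namespace Pool.Agent.Results.MP_5d027a_an.ProductsDisjoint

universe u

/-- `A` is invariant under `f` (only `f A ⊆ A` is required). -/
def Invariant {X : Type*} (f : X → X) (A : Set X) : Prop := ∀ x ∈ A, f x ∈ A

/-- The system `(Z, R)` is minimal: `Z` is nonempty and has no nonempty proper closed invariant
subset. -/
def IsMinimalSystem {Z : Type*} [TopologicalSpace Z] (R : Z → Z) : Prop :=
  Nonempty Z ∧ ∀ A : Set Z, IsClosed A → Invariant R A → A.Nonempty → A = univ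

/-- Furstenberg disjointness: the only closed `T × R`-invariant subset of `X × Z` which projects
onto `X` and onto `Z` is `X × Z`. -/
def Disjoint' {X Z : Type*} [TopologicalSpace X] [TopologicalSpace Z] (T : X → X) (R : Z → Z) :
    Prop :=
  ∀ J : Set (X × Z), IsClosed J → Invariant (Prod.map T R) J → Prod.fst '' J = univ →
    Prod.snd '' J = univ → J = univ

/-- `(X, T)` is disjoint from every minimal system (on a compact metrizable space). -/
def DisjointFromMinimal {X : Type u} [TopologicalSpace X] (T : X → X) : Prop :=
  ∀ (Z : Type u) [TopologicalSpace Z] [CompactSpace Z] [MetrizableSpace Z]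
    (R : Z ≃ₜ Z), IsMinimalSystem R → Disjoint' T R

/-- The product of two systems which are disjoint from all minimal systems is disjoint from all
minimal systems. -/
theorem result (X Y : Type u) [TopologicalSpace X] [CompactSpace X] [MetrizableSpace X]
    [Nonempty X] [TopologicalSpace Y] [CompactSpace Y] [MetrizableSpace Y] [Nonempty Y]
    (T : X ≃ₜ X) (S : Y ≃ₜ Y) (hT : DisjointFromMinimal T) (hS : DisjointFromMinimal S) :
    DisjointFromMinimal (Prod.map T S) :=
  Pool.Agent.H694R3.Dj.prod_disj T S hT hS (Pool.Agent.H694R3.Dj.DisjM.dm T hT)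
    (Pool.Agent.H694R3.Dj.DisjM.dm S hS)

end Pool.Agent.Results.MP_5d027a_an.ProductsDisjoint
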